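import Pool.Agent.R278.LS.Final

/-!
# A cofinally Fraisse Banach space which is not omega-categorical

Answer to Q1 and Q2 of MP_65983e_an: both statements are disproved.  The space is the
square-summable sum of the two-dimensional spaces `E_n` with norm given by
`‖(u,v)‖ ^ 2 = u ^ 2 + v ^ 2 + 2 * e_n * |u * v|`, where `e_n = 1 / (n + 2)`.
-/

open Set Filter Topology

namespace Pool.Agent.Results.MP_65983e_an.CofinalFraisseNotOmegaCat

variable (X : Type) [NormedAddCommGroup X] [NormedSpace ℝ X]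

/-- `Emb_δ(E, X)`: linear maps `T : E → X` with `(1+δ)⁻¹ ‖x‖ ≤ ‖T x‖ ≤ (1+δ) ‖x‖`. -/
def Emb (E : Submodule ℝ X) (δ : ℝ) : Set (E →L[ℝ] X) :=
  {T | ∀ x : E, (1 + δ)⁻¹ * ‖x‖ ≤ ‖T x‖ ∧ ‖T x‖ ≤ (1 + δ) * ‖x‖}

/-- The isometry group acts `ε`-transitively on a set of maps `E → X`. -/
def EpsTransitive (E : Submodule ℝ X) (ε : ℝ) (S : Set (E →L[ℝ] X)) : Prop :=
  ∀ ι ∈ S, ∀ ι' ∈ S, ∃ T : X ≃ₗᵢ[ℝ] X,
    ‖ι' - (T.toContinuousLinearEquiv : X →L[ℝ] X).comp ι‖ < ε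

/-- Guarded Fraisse spaces. -/
def GuardedFraisse : Prop :=
  ∀ E : Submodule ℝ X, FiniteDimensional ℝ E → ∀ ε : ℝ, 0 < ε →
    ∃ δ : ℝ, 0 < δ ∧ ∃ (F : Submodule ℝ X) (h : E ≤ F), FiniteDimensional ℝ F ∧
      EpsTransitive X E ε {j | ∃ ι ∈ Emb X F δ, ∀ x : E, j x = ι ⟨x, h x.2⟩}

/-- Cofinally Fraisse spaces. -/
def CofinallyFraisse : Prop :=
  ∀ ε : ℝ, 0 < ε → ∀ E : Submodule ℝ X, FiniteDimensional ℝ E →
    ∃ F : Submodule ℝ X, E ≤ F ∧ FiniteDimensional ℝ F ∧ ∃ δ : ℝ, 0 < δ ∧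
      EpsTransitive X F ε (Emb X F δ)

/-- The closure of the orbit of an `n`-tuple under the diagonal action of the surjective linear
isometries. -/
def orbitClosure {n : ℕ} (x : Fin n → X) : Set (Fin n → X) :=
  closure {y | ∃ T : X ≃ₗᵢ[ℝ] X, y = fun i => T (x i)}

/-- The distance of two sets of `n`-tuples for the max-metric. -/
noncomputable def setDist {n : ℕ} (A B : Set (Fin n → X)) : ℝ :=
  sInf {r | ∃ z ∈ A, ∃ z' ∈ B, r = dist z z'}

/-- `X` is `ω`-categorical: for every `n` the metric space of orbit closures of `n`-tuples of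
the closed unit ball is (sequentially) compact. -/
def OmegaCategorical : Prop :=
  ∀ (n : ℕ) (x : ℕ → Fin n → X), (∀ k i, ‖x k i‖ ≤ 1) →
    ∃ y : Fin n → X, (∀ i, ‖y i‖ ≤ 1) ∧ ∃ φ : ℕ → ℕ, StrictMono φ ∧
      Tendsto (fun k => setDist X (orbitClosure X (x (φ k))) (orbitClosure X y)) atTop (𝓝 0)

open Pool.Agent.R278.LS

theorem cofinally : CofinallyFraisse XX := by
  intro ε hε E hE
  obtain ⟨F, hEF, hF, δ, hδ, h⟩ := cofinal E (show 0 < ε / 3 by positivity)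
  refine ⟨F, hEF, hF, δ, hδ, ?_⟩
  intro ι hι ι' hι'
  obtain ⟨σ, hσ⟩ := h ι.toLinearMap hι
  obtain ⟨τ, hτ⟩ := h ι'.toLinearMap hι'
  refine ⟨(act σ).symm.trans (act τ), ?_⟩
  refine lt_of_le_of_lt (ContinuousLinearMap.opNorm_le_bound _
    (show 0 ≤ 2 * (ε / 3) by positivity) ?_) (show 2 * (ε / 3) < ε by linarith)
  intro x
  have h1 : (ι' - (((act σ).symm.trans (act τ)).toContinuousLinearEquiv : XX →L[ℝ] XX).comp ι) x
      = (ι' x - act τ (x : XX)) + act τ ((act σ).symm (act σ (x : XX) - ι x)) := by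
    change ι' x - act τ ((act σ).symm (ι x)) = _
    rw [map_sub, map_sub, LinearIsometryEquiv.symm_apply_apply]
    abel
  rw [h1]
  calc ‖(ι' x - act τ (x : XX)) + act τ ((act σ).symm (act σ (x : XX) - ι x))‖
      ≤ ‖ι' x - act τ (x : XX)‖ + ‖act τ ((act σ).symm (act σ (x : XX) - ι x))‖ :=
        norm_add_le _ _
    _ = ‖ι' x - act τ (x : XX)‖ + ‖ι x - act σ (x : XX)‖ := by
        rw [LinearIsometryEquiv.norm_map, LinearIsometryEquiv.norm_map, norm_sub_rev (ι x)]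
    _ ≤ ε / 3 * ‖x‖ + ε / 3 * ‖x‖ := add_le_add (hτ x) (hσ x)
    _ = 2 * (ε / 3) * ‖x‖ := by ring

theorem guarded : GuardedFraisse XX := by
  intro E hE ε hε
  obtain ⟨F, hEF, hF, δ, hδ, h⟩ := cofinally (ε / 2) (by positivity) E hE
  refine ⟨δ, hδ, F, hEF, hF, ?_⟩
  rintro j ⟨ι, hι, hj⟩ j' ⟨ι', hι', hj'⟩
  obtain ⟨T, hT⟩ := h ι hι ι' hι'
  refine ⟨T, ?_⟩
  refine lt_of_le_of_lt (ContinuousLinearMap.opNorm_le_bound _
    (show 0 ≤ ε / 2 by positivity) ?_) (show ε / 2 < ε by linarith)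
  intro x
  have h1 : (j' - (T.toContinuousLinearEquiv : XX →L[ℝ] XX).comp j) x
      = (ι' - (T.toContinuousLinearEquiv : XX →L[ℝ] XX).comp ι) ⟨x, hEF x.2⟩ := by
    change j' x - T (j x) = ι' ⟨x, hEF x.2⟩ - T (ι ⟨x, hEF x.2⟩)
    rw [hj, hj']
  rw [h1]
  refine (ContinuousLinearMap.le_opNorm _ _).trans ?_
  exact mul_le_mul_of_nonneg_right hT.le (norm_nonneg _)

theorem exists_of_setDist_lt {x y : Fin 1 → XX} {r : ℝ}
    (h : setDist XX (orbitClosure XX x) (orbitClosure XX y) < r) :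
    ∃ T : XX ≃ₗᵢ[ℝ] XX, ‖T (x 0) - y 0‖ < r := by
  have hne : {r | ∃ z ∈ orbitClosure XX x, ∃ z' ∈ orbitClosure XX y, r = dist z z'}.Nonempty := by
    refine ⟨dist x y, x, subset_closure ⟨LinearIsometryEquiv.refl ℝ XX, rfl⟩, y,
      subset_closure ⟨LinearIsometryEquiv.refl ℝ XX, rfl⟩, rfl⟩
  obtain ⟨_, ⟨z, hz, z', hz', rfl⟩, hr⟩ := exists_lt_of_csInf_lt hne h
  obtain ⟨_, ⟨T, rfl⟩, hT⟩ := Metric.mem_closure_iff.1 hz ((r - dist z z') / 2) (by linarith)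
  obtain ⟨_, ⟨S, rfl⟩, hS⟩ := Metric.mem_closure_iff.1 hz' ((r - dist z z') / 2) (by linarith)
  refine ⟨T.trans S.symm, ?_⟩
  have h1 : dist (T (x 0)) (S (y 0)) < r := by
    calc dist (T (x 0)) (S (y 0)) ≤ dist (fun i => T (x i)) (fun i => S (y i)) :=
          dist_le_pi_dist (fun i => T (x i)) (fun i => S (y i)) 0
      _ ≤ dist (fun i => T (x i)) z + dist z z' + dist z' (fun i => S (y i)) :=
          dist_triangle4 _ _ _ _
      _ < r := by
          rw [dist_comm (fun i => T (x i)) z]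
          linarith
  have h2 : ‖(T.trans S.symm) (x 0) - y 0‖ = dist (T (x 0)) (S (y 0)) := by
    rw [dist_eq_norm]
    rw [← S.symm.norm_map (T (x 0) - S (y 0)), map_sub, LinearIsometryEquiv.symm_apply_apply]
    rfl
  rw [h2]
  exact h1

theorem not_omega : ¬ OmegaCategorical XX := by
  intro h
  obtain ⟨y, -, φ, hφ, hlim⟩ := h 1 (fun k _ => ve k) (fun k _ => (norm_ve k).le)
  have h1 := hlim.eventually_lt_const (show (0 : ℝ) < 1 / 4 by norm_num)
  obtain ⟨N, hN⟩ := Filter.eventually_atTop.1 h1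
  obtain ⟨T, hT⟩ := exists_of_setDist_lt (hN N le_rfl)
  obtain ⟨S, hS⟩ := exists_of_setDist_lt (hN (N + 1) (Nat.le_succ N))
  have hne : φ N ≠ φ (N + 1) := (hφ (Nat.lt_succ_self N)).ne
  have h2 := orbit_sep hne T S
  have h3 : ‖T (ve (φ N)) - S (ve (φ (N + 1)))‖ ≤
      ‖T (ve (φ N)) - y 0‖ + ‖S (ve (φ (N + 1))) - y 0‖ := by
    calc ‖T (ve (φ N)) - S (ve (φ (N + 1)))‖
        = ‖(T (ve (φ N)) - y 0) - (S (ve (φ (N + 1))) - y 0)‖ := by
          congr 1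
          abel
      _ ≤ _ := norm_sub_le _ _
  have hT' : ‖T (ve (φ N)) - y 0‖ < 1 / 4 := hT
  have hS' : ‖S (ve (φ (N + 1))) - y 0‖ < 1 / 4 := hS
  linarith

/-- There is a separable infinite-dimensional Banach space which is cofinally Fraisse and guarded
Fraisse but not omega-categorical. -/
theorem result : ∃ (X : Type) (_ : NormedAddCommGroup X) (_ : NormedSpace ℝ X),
    CompleteSpace X ∧ TopologicalSpace.SeparableSpace X ∧ ¬ FiniteDimensional ℝ X ∧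
      CofinallyFraisse X ∧ GuardedFraisse X ∧ ¬ OmegaCategorical X :=
  ⟨XX, inferInstance, inferInstance, inferInstance, separable_XX, not_finiteDimensional_XX,
    cofinally, guarded, not_omega⟩

end Pool.Agent.Results.MP_65983e_an.CofinalFraisseNotOmegaCat
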