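import Pool.Agent.R928.GF.Cat

/-! There is an infinite-dimensional guarded Fraisse Banach space that is not omega-categorical. -/

namespace Pool.Agent.Results.MP_65983e_an.Guarded

open Pool.Agent.R928.GF

/-- There is a separable infinite-dimensional real Banach space which is guarded Fraisse and not omega-categorical. -/
theorem result : ∃ (X : Type) (_ : NormedAddCommGroup X) (_ : NormedSpace ℝ X), CompleteSpace X ∧
    TopologicalSpace.SeparableSpace X ∧ ¬ FiniteDimensional ℝ X ∧ GuardedFraisse X ∧ ¬ OmegaCategorical X :=
  ⟨XX, inferInstance, inferInstance, inferInstance, separable, infinite_dim, guarded, not_cat⟩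

end Pool.Agent.Results.MP_65983e_an.Guarded
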